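import Mathlib
import Pool.Agent.KTB.StmtsKB

set_option autoImplicit false

/-! Row STE of the squad KTB: the smaller situation. -/

namespace Pool.Agent.KTB.H50

open Pool.Agent.KTB Finset
open scoped Classical

theorem ste (xtk : XtkStmt) (xcl : XclStmt) (ipx : IpxStmt) : SteStmt := by
  intro ι T _ D S R K μ k t h hfr
  obtain ⟨p, f, hR⟩ := h.vd
  have hll : D.LL (S \ R) := hR.2.2
  obtain ⟨Z, hZ, htZ⟩ := xcl ι T D (S \ R) K μ k t hll h.ipc hfr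
  obtain ⟨X, hXZ, _, hX, hX'⟩ := xtk ι T D S R Z h.ll h.vd hZ
  refine ⟨X, Z, hXZ, htZ, hX, hZ, hX', ?_⟩
  rintro ⟨j, hj, b, hb, hjb⟩
  have hipc := (ipx ι T D (S \ R) Z K μ k t h.ipc hfr hZ htZ).2
  have hset : (S \ X) \ (Z \ X ∪ R) = (S \ R) \ Z := by
    ext a
    simp only [Finset.mem_sdiff, Finset.mem_union]
    have := @hXZ a
    tauto
  obtain ⟨q, g, hXv⟩ := hX
  refine ⟨hXv.2.2, h.pos, ?_, hX', ?_, ⟨j, hj, b, hb, hjb⟩⟩
  · intro S' hS'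
    refine h.min S' ?_
    exact Relation.ReflTransGen.head ⟨X, ⟨q, g, hXv⟩, rfl⟩ hS'
  · rw [hset]
    exact hipc

end Pool.Agent.KTB.H50
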